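import Pool.Agent.H8.DS.TarG

/-!
# Module BW of the board ds_modules
-/

namespace DS

open Set Data

namespace H85BW

variable {C S : Type} {X : Data C S}

lemma near_refl {ε : ℝ} (hε : 0 < ε) (P : C × ℝ × ℝ) : Near ε P P :=
  ⟨rfl, by simpa using hε, by simpa using hε⟩

/-- downward escape -/
lemma esc (hU : T_UPF) (hEQS : T_EQS) (hE : T_ESCD) (hX : X.Surface) {t : ℝ} (ht : X.Tgood t)
    {c : C} {z : ℝ × ℝ} (hv : X.Valid c z) (hp : ∀ k > 0, X.Pure c (fwd t z (-k)))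
    {ε : ℝ} (hε : 0 < ε) :
    ∃ Q ∈ X.FS t, ∃ R, X.Leaf t R (c, z) ∧ Near ε R Q := by
  have hH : X.Hopf c := by
    by_contra hc
    obtain ⟨k, hk, hk'⟩ := (hU C S X hX t ht c hc z).2
    exact hk' (hp k hk)
  obtain ⟨h, hh, g, hg, hN⟩ := hE C S X hX t c hH z ε hε
  refine ⟨(c, -t, -1), Or.inl ⟨c, hH, rfl⟩, (c, act g (fwd t z (-h))), ?_, hN⟩
  have e : fwd t (fwd t z (-h)) h = z := by rw [fwd_add, neg_add_cancel, fwd_zero]
  have hstep : X.Step t (c, fwd t z (-h)) (c, z) (1 * 1) := by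
    refine ⟨c, fwd t z (-h), 1, h, (1, 0, 0), Start.pure c _ (hp h hh), hh, ?_, ?_,
      deck_one X hX c, ?_, rfl⟩
    · intro k hk hkh
      have e1 : fwd t (fwd t z (-h)) k = fwd t z (-(h - k)) := by
        rw [fwd_add]
        congr 1
        ring
      rw [e1]
      exact hp (h - k) (by linarith)
    · rw [e]
      exact hv
    · rw [e, act_one]
  exact ⟨_, Reach.step ((hEQS C S X hX t _ _ _ hstep).1 g hg)⟩

lemma leaf_HC (hHS : T_HS) (hX : X.Surface) {t : ℝ} {Z : C × ℝ × ℝ} :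
    ∀ {n : ℕ} {y y' : S × ℝ}, X.HC t n y y' → X.Leaf t Z (X.sp y) → X.Leaf t Z (X.sp y')
  | 0, y, y', h, hl => by
    have h' : y = y' := h
    rw [← h']
    exact hl
  | n + 1, y, y', h, hl => by
    obtain ⟨y₁, h1, h2⟩ := h
    obtain ⟨m, hm⟩ := hl
    obtain ⟨k, hk⟩ := (hHS C S X hX t _ _ h1.1 h1.2.1).mp h1
    exact leaf_HC hHS hX h2 ⟨m * k, Reach.tail hm hk⟩

end H85BW

open H85BW

theorem pf_BW (hDNZ : T_DNZ) (hUPF : T_UPF) (hEQS : T_EQS) (hRAY : T_RAY)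
    (hESCD : T_ESCD) (hRAY0 : T_RAY0) (hSTSL : T_STSL) (hHS : T_HS) (hMID : T_MID)
    (hTRANS : T_TRANS) : T_BW := by
  intro C S _ X hX hUp t ht hN P hP hInf ε hε
  obtain ⟨c, z⟩ := P
  rcases hDNZ C S X hX t c z hP.2 with h | h | h | h
  · exact esc hUPF hEQS hESCD hX ht hP h hε
  · obtain ⟨s, hs, g, hg, ξ, hξ, h, hh, hcl, he⟩ := h
    obtain ⟨m0, hm0⟩ := (hSTSL C S X hX t).2 (c, z) s g ξ h hs hg hξ hh hcl he hP
    have hreach : ∀ y : S × ℝ, Relation.ReflTransGen (fun a b => X.Hit t b a)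
        (X.glue.symm s, ξ) y → y.2 ∈ Ioo (0 : ℝ) 1 ∧ X.Leaf t (X.sp y) (c, z) ∧
        X.Valid (X.sp y).1 (X.sp y).2 := by
      intro y hy
      induction hy with
      | refl => exact ⟨hξ, ⟨m0, Reach.step hm0⟩, (hEQS C S X hX t _ _ _ hm0).2.2.2.1⟩
      | tail _ h2 ih =>
        obtain ⟨ih1, ⟨m, ihm⟩, _⟩ := ih
        obtain ⟨n, hn⟩ := (hHS C S X hX t _ _ h2.1 ih1).mp h2
        exact ⟨h2.1, ⟨n * m, hTRANS C S X t _ _ _ _ _ (Reach.step hn) ihm⟩,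
          (hEQS C S X hX t _ _ _ hn).2.2.2.1⟩
    by_cases hB : ∃ y₁, Relation.ReflTransGen (fun a b => X.Hit t b a) (X.glue.symm s, ξ) y₁ ∧
        ∀ y₂, ¬ X.Hit t y₂ y₁
    · obtain ⟨y₁, hy₁, hno⟩ := hB
      obtain ⟨hy1, ⟨m, hm⟩, hv⟩ := hreach y₁ hy₁
      rcases hDNZ C S X hX t (X.sp y₁).1 (X.sp y₁).2 hv.2 with h | h | h | h
      · obtain ⟨Q, hQ, R, ⟨n, hn⟩, hRQ⟩ := esc hUPF hEQS hESCD hX ht hv h hε
        exact ⟨Q, hQ, R, ⟨n * m, hTRANS C S X t _ _ _ _ _ hn hm⟩, hRQ⟩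
      · obtain ⟨s', hs', g', hg', ξ', hξ', h', hh', hcl', he'⟩ := h
        have h3 := (hSTSL C S X hX t).2 (X.sp y₁) s' g' ξ' h' hs' hg' hξ' hh' hcl' he' hv
        exact absurd ((hHS C S X hX t (X.glue.symm s', ξ') y₁ hξ' hy1).mpr h3) (hno _)
      · obtain ⟨w, h', hh', hw, hcl', he'⟩ := h
        exact absurd ⟨w, h', hw, hh', hcl', he'⟩ (hInf.2 _ _ hm)
      · obtain ⟨hH, h', hh', hcl', he'⟩ := h
        have h3 := hRAY0 C S X hX t _ hH h' hh' hcl' h' hh'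
        have e : ((h' * t, h') : ℝ × ℝ) = (X.sp y₁).2 := by
          rw [he']
          unfold fwd
          refine Prod.ext ?_ ?_
          · simp only [Prod.fst_zero]
            ring
          · simp only [Prod.snd_zero]
            ring
        rw [e] at h3
        exact absurd ⟨y₁.1, rfl, (1, 0, 0), deck_one X hX _, y₁.2, ⟨hy1.1.le, hy1.2.le⟩,
          (act_one _).symm⟩ h3.1
    · push Not at hB
      choose! f hf using hB
      let F : {y // Relation.ReflTransGen (fun a b => X.Hit t b a) (X.glue.symm s, ξ) y} →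
          {y // Relation.ReflTransGen (fun a b => X.Hit t b a) (X.glue.symm s, ξ) y} := fun y =>
        ⟨f y.1, y.2.tail (hf y.1 y.2)⟩
      let y : ℕ → S × ℝ := fun n => (F^[n] ⟨(X.glue.symm s, ξ), Relation.ReflTransGen.refl⟩).1
      have hy : ∀ k, X.Hit t (y (k + 1)) (y k) := by
        intro k
        change X.Hit t (F^[k + 1] _).1 (y k)
        rw [Function.iterate_succ_apply']
        exact hf _ (F^[k] _).2
      obtain ⟨n, hn, hper⟩ := hN.bwd y hy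
      have hper' : X.HC t n (X.glue.symm s, ξ) (X.glue.symm s, ξ) := hper
      obtain ⟨n, rfl⟩ : ∃ k, n = k + 1 := ⟨n - 1, by omega⟩
      obtain ⟨y₁, h1, h2⟩ := id hper'
      obtain ⟨_, _, _, _, m1, hm1⟩ := hMID C S X hX t _ _ h1
      obtain ⟨m2, hm2⟩ := leaf_HC hHS hX h2 ⟨m1, Reach.step hm1⟩
      exact ⟨X.mid t (X.glue.symm s, ξ), Or.inr (Or.inr ⟨_, ⟨n + 1, hn, hper'⟩, rfl⟩),
        X.mid t (X.glue.symm s, ξ), ⟨m2 * m0, Reach.tail hm2 hm0⟩, near_refl hε _⟩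
  · obtain ⟨w, h, hh, hw, hcl, he⟩ := h
    exact absurd ⟨w, h, hw, hh, hcl, he⟩ hInf.1
  · obtain ⟨hH, h, hh, hcl, he⟩ := h
    have hpure := hRAY0 C S X hX t c hH h hh hcl
    have h3 := hRAY C S X hX t c hH 1 (Or.inl rfl)
      (fun k hk => by rw [one_mul]; exact hpure k hk) 1 one_pos h hh
    refine ⟨(c, t, 1), Or.inr (Or.inl ⟨c, hH, hpure, rfl⟩), (c, t, 1), ?_, near_refl hε _⟩
    have e1 : ((c, 1 * 1 * t, 1 * 1) : C × ℝ × ℝ) = (c, t, 1) := by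
      rw [mul_one, one_mul]
    have e2 : ((c, 1 * h * t, 1 * h) : C × ℝ × ℝ) = (c, z) := by
      rw [he]
      unfold fwd
      refine Prod.ext rfl (Prod.ext ?_ ?_)
      · simp only [Prod.fst_zero]
        ring
      · simp only [Prod.snd_zero]
        ring
    rw [e1, e2] at h3
    exact h3

end DS
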