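import Pool.Agent.H8.DS.TarG

/-!
# Module FW of the board ds_modules
-/

namespace DS

open Set Data

namespace H85FW

variable {C S : Type} {X : Data C S}

lemma valid_of_pure {c : C} {z : ℝ × ℝ} (h : X.Pure c z) : X.Valid c z := by
  refine ⟨fun he => h.1 ?_, h.2⟩
  obtain ⟨s, hs, g, hg, h1 | h1⟩ := he
  · exact ⟨s, hs, g, hg, 0, ⟨le_rfl, zero_le_one⟩, h1⟩
  · exact ⟨s, hs, g, hg, 1, ⟨zero_le_one, le_rfl⟩, h1⟩

lemma near_refl {ε : ℝ} (hε : 0 < ε) (P : C × ℝ × ℝ) : Near ε P P :=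
  ⟨rfl, by simpa using hε, by simpa using hε⟩

lemma start_sp (hX : X.Surface) (y : S × ℝ) (hy : y.2 ∈ Ioo (0 : ℝ) 1) :
    ∃ r, X.Start (X.sp y) (X.comp (X.glue y.1)) (X.pt (X.glue y.1) y.2) r := by
  have h := Start.cross (X := X) y.1 (1, 0, 0) y.2 (deck_one X hX _) hy.1 hy.2
  rw [act_one] at h
  exact ⟨_, h⟩

/-- upward escape -/
lemma esc (hU : T_UPF) (hE : T_ESCU) (hX : X.Surface) (hUp : X.Upper) {t : ℝ} (ht : X.Tgood t)
    {P : C × ℝ × ℝ} {c : C} {z : ℝ × ℝ} {r : ℝ} (hS : X.Start P c z r)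
    (hp : ∀ k > 0, X.Pure c (fwd t z k)) {ε : ℝ} (hε : 0 < ε) :
    ∃ Q ∈ X.FS t, ∃ R, X.Leaf t P R ∧ Near ε R Q := by
  have hH : X.Hopf c := by
    by_contra hc
    obtain ⟨k, hk, hk'⟩ := (hU C S X hX t ht c hc z).1
    exact hk' (hp k hk)
  obtain ⟨h1, h2⟩ := hE C S X hX hUp t ht c hH z hp
  obtain ⟨h, hh, g, hg, hN⟩ := h2 ε hε
  refine ⟨(c, t, 1), Or.inr (Or.inl ⟨c, hH, h1, rfl⟩), (c, act g (fwd t z h)), ?_, hN⟩
  exact ⟨r * g.1, Reach.step ⟨c, z, r, h, g, hS, hh, fun k hk _ => hp k hk,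
    valid_of_pure (hp h hh), hg, rfl, rfl⟩⟩

lemma hit_of_HC {t : ℝ} : ∀ {n : ℕ} {y y' : S × ℝ}, 0 < n → X.HC t n y y' → ∃ y₁, X.Hit t y y₁
  | 0, _, _, h, _ => absurd h (lt_irrefl 0)
  | _ + 1, _, _, _, h => by
    obtain ⟨y₁, h1, _⟩ := h
    exact ⟨y₁, h1⟩

end H85FW

open H85FW

theorem pf_FW (hUPZ : T_UPZ) (hUPF : T_UPF) (hSTEX : T_STEX) (hRAY : T_RAY) (hNEG : T_NEG)
    (hESCU : T_ESCU) (hSTSL : T_STSL) (hHS : T_HS) (hMIDN : T_MIDN) (hTRANS : T_TRANS) :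
    T_FW := by
  intro C S _ X hX hUp t ht hN P hP hInf ε hε
  obtain ⟨c, z, r, hSt, hz, hr⟩ := hSTEX C S X hX P hP
  rcases hUPZ C S X hX t c z hz with h | h | h | h
  · exact esc hUPF hESCU hX hUp ht hSt h hε
  · obtain ⟨s, hs, g, hg, ξ, hξ, h, hh, hcl, he⟩ := h
    obtain ⟨m0, hm0⟩ := (hSTSL C S X hX t).1 P c z r h s g ξ hSt hh hcl hs hg hξ he
    have hreach : ∀ y : S × ℝ, Relation.ReflTransGen (X.Hit t) (s, ξ) y →
        y.2 ∈ Ioo (0 : ℝ) 1 ∧ X.Leaf t P (X.sp y) := by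
      intro y hy
      induction hy with
      | refl => exact ⟨hξ, m0, Reach.step hm0⟩
      | tail _ h2 ih =>
        obtain ⟨ih1, m, ihm⟩ := ih
        obtain ⟨n, hn⟩ := (hHS C S X hX t _ _ ih1 h2.2.1).mp h2
        exact ⟨h2.2.1, m * n, Reach.tail ihm hn⟩
    by_cases hB : ∃ y₁, Relation.ReflTransGen (X.Hit t) (s, ξ) y₁ ∧ ∀ y₂, ¬ X.Hit t y₁ y₂
    · obtain ⟨y₁, hy₁, hno⟩ := hB
      obtain ⟨hy1, m, hm⟩ := hreach y₁ hy₁
      obtain ⟨r₁, hr₁⟩ := start_sp hX y₁ hy1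
      have hz₁ : X.Hopf (X.comp (X.glue y₁.1)) → X.pt (X.glue y₁.1) y₁.2 ≠ 0 := fun hH =>
        hX.origin (X.glue y₁.1) hH y₁.2 ⟨hy1.1.le, hy1.2.le⟩
      rcases hUPZ C S X hX t _ _ hz₁ with h | h | h | h
      · obtain ⟨Q, hQ, R, ⟨n, hn⟩, hRQ⟩ := esc hUPF hESCU hX hUp ht hr₁ h hε
        exact ⟨Q, hQ, R, ⟨m * n, hTRANS C S X t _ _ _ _ _ hm hn⟩, hRQ⟩
      · obtain ⟨s', hs', g', hg', ξ', hξ', h', hh', hcl', he'⟩ := h
        exact absurd ⟨hy1, hξ', hs', g', by rw [hs']; exact hg', h', hh', hcl', he'⟩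
          (hno (s', ξ'))
      · obtain ⟨h', hh', hcl', he'⟩ := h
        exact absurd ⟨_, _, r₁, h', hr₁, hh', hcl', he'⟩ (hInf.2 _ _ hm)
      · obtain ⟨hH, h', hh', _, he'⟩ := h
        have h1 := hUp _ hH
        have h2 := congrArg Prod.snd he'
        simp only [fwd, pt, Prod.snd_zero] at h2
        linarith
    · push Not at hB
      choose! f hf using hB
      let F : {y // Relation.ReflTransGen (X.Hit t) (s, ξ) y} →
          {y // Relation.ReflTransGen (X.Hit t) (s, ξ) y} := fun y =>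
        ⟨f y.1, y.2.tail (hf y.1 y.2)⟩
      let y : ℕ → S × ℝ := fun n => (F^[n] ⟨(s, ξ), Relation.ReflTransGen.refl⟩).1
      have hy : ∀ k, X.Hit t (y k) (y (k + 1)) := by
        intro k
        change X.Hit t (y k) (F^[k + 1] _).1
        rw [Function.iterate_succ_apply']
        exact hf _ (F^[k] _).2
      have hyr : ∀ k, X.Leaf t P (X.sp (y k)) := fun k => (hreach _ (F^[k] _).2).2
      obtain ⟨y', ⟨n, hn, hper⟩, hacc⟩ := hN.att y hy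
      obtain ⟨y'', hy''⟩ := hit_of_HC hn hper
      obtain ⟨δ, hδ, hmid⟩ := hMIDN C S X hX t y' y'' hy'' ε hε
      obtain ⟨k, _, hk1, hk2⟩ := hacc δ hδ 0
      obtain ⟨R, m, hR, hRN⟩ := hmid (y k).2 hk2
      have e : (y'.1, (y k).2) = y k := by rw [← hk1]
      rw [e] at hR
      obtain ⟨m', hm'⟩ := hyr k
      exact ⟨X.mid t y', Or.inr (Or.inr ⟨y', ⟨n, hn, hper⟩, rfl⟩), R,
        ⟨m' * m, Reach.tail hm' hR⟩, hRN⟩
  · obtain ⟨h, hh, hcl, he⟩ := h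
    exact absurd ⟨c, z, r, h, hSt, hh, hcl, he⟩ hInf.1
  · obtain ⟨hH, h, hh, _, he⟩ := h
    have h2 := congrArg Prod.snd he
    have h1 := congrArg Prod.fst he
    simp only [fwd, Prod.snd_zero, Prod.fst_zero] at h1 h2
    cases hSt with
    | pure _ _ hp =>
      have hz' : z = (-1 * h * t, -1 * h) := Prod.ext (by simp only; linarith) (by simp only; linarith)
      have h3 := hRAY C S X hX t c hH (-1) (Or.inr rfl)
        (fun k hk => hNEG C S X hX hUp c hH _ (by simp only; linarith)) h hh 1 one_pos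
      refine ⟨(c, -t, -1), Or.inl ⟨c, hH, rfl⟩, (c, -t, -1), ?_, near_refl hε _⟩
      rw [hz']
      have e : ((c, -1 * 1 * t, -1 * 1) : C × ℝ × ℝ) = (c, -t, -1) := by
        rw [mul_one, neg_one_mul]
      rw [e] at h3
      exact h3
    | cross s g ξ hg h0 h1' =>
      have h3 := hUp _ hH
      simp only [pt] at h2
      linarith

end DS
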